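import Pool.Agent.H.MP_53e59f_lc.SF.Stm

/-!
# Periods
-/

namespace Pool.Agent.SH

/-- `P` is a period of the word `u`: letters at distance `P` are equal. -/
def Per {α : Type} (P : ℕ) (u : List α) : Prop :=
  ∀ i, i + P < u.length → u[i + P]? = u[i]?

end Pool.Agent.SH
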