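import Pool.Agent.H.MP_53e59f_lc.SH.Cross

/-!
# The number of the sets of tokens for periodic words
-/

namespace Pool.Agent.SH

open Pool.Agent.SF

/-- The set with the code `(l, r, Q)`. -/
def dcd (P : ℕ) (l r : ℕ) (Q : Set ℕ) : Set ℕ := {z | l ≤ z ∧ z ≤ r ∧ (z - l) % P ∈ Q}

theorem Cnt_down {P : ℕ} {S : Set ℕ} {l : ℕ} (hl : l ∈ S) (hP : 0 < P)
    (h : ∀ x ∈ S, ∀ y ∈ S, x + P ≤ y → x + P ∈ S ∧ y - P ∈ S) (n : ℕ) :
    ∀ z ∈ S, z = l + n → l + n % P ∈ S := by
  induction n using Nat.strong_induction_on with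
  | _ n ih =>
    intro z hz hn
    by_cases hnP : n < P
    · rw [Nat.mod_eq_of_lt hnP, ← hn]
      exact hz
    · have h1 := (h l hl z hz (by omega)).2
      have h2 := ih (n - P) (by omega) (z - P) h1 (by omega)
      rwa [← Nat.mod_eq_sub_mod (by omega)] at h2

theorem Cnt_up {P : ℕ} {S : Set ℕ} {l r : ℕ} (hr : r ∈ S)
    (h : ∀ x ∈ S, ∀ y ∈ S, x + P ≤ y → x + P ∈ S ∧ y - P ∈ S) (j : ℕ) :
    ∀ z, z ∈ S → z + P * j ≤ r → z + P * j ∈ S := by
  induction j with
  | zero =>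
    intro z hz _
    simpa using hz
  | succ j ih =>
    intro z hz hle
    rw [Nat.mul_succ] at hle ⊢
    have h1 := ih z hz (by omega)
    have h2 := (h _ h1 r hr (by omega)).1
    have e : z + P * j + P = z + (P * j + P) := by ring
    rwa [e] at h2

/-- Sets with the property of `cross` have codes. -/
theorem dcd_eq {P N : ℕ} (hP : 0 < P) {S : Set ℕ} (hS : ∀ z ∈ S, z ≤ N)
    (h : ∀ x ∈ S, ∀ y ∈ S, x + P ≤ y → x + P ∈ S ∧ y - P ∈ S) :
    ∃ (l r : Fin (N + 1)) (Q : Finset (Fin P)), S = dcd P l r {i | ∃ j ∈ Q, (j : ℕ) = i} := by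
  classical
  rcases Set.eq_empty_or_nonempty S with h0 | hne
  · refine ⟨0, 0, ∅, ?_⟩
    rw [h0]
    ext z
    simp [dcd]
  · have hbdd : BddAbove S := ⟨N, fun z hz => hS z hz⟩
    have hl : sInf S ∈ S := Nat.sInf_mem hne
    have hr : sSup S ∈ S := Nat.sSup_mem hne hbdd
    have hlN := hS _ hl
    have hrN := hS _ hr
    refine ⟨⟨sInf S, by omega⟩, ⟨sSup S, by omega⟩,
      Finset.univ.filter fun i : Fin P => sInf S + (i : ℕ) ∈ S, ?_⟩
    ext z
    constructor
    · intro hz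
      have h1 : sInf S ≤ z := Nat.sInf_le hz
      refine ⟨h1, le_csSup hbdd hz, ⟨(z - sInf S) % P, Nat.mod_lt _ hP⟩, ?_, rfl⟩
      rw [Finset.mem_filter]
      exact ⟨Finset.mem_univ _, Cnt_down hl hP h (z - sInf S) z hz (by omega)⟩
    · rintro ⟨h1, h2, j, hj, hj2⟩
      rw [Finset.mem_filter] at hj
      have h3 : sInf S + (z - sInf S) % P ∈ S := by
        have := hj.2
        rw [hj2] at this
        exact this
      have h4 := Nat.mod_add_div (z - sInf S) P
      have h1' : sInf S ≤ z := h1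
      have h2' : z ≤ sSup S := h2
      have e : sInf S + (z - sInf S) % P + P * ((z - sInf S) / P) = z := by omega
      have h5 := Cnt_up (l := sInf S) hr h ((z - sInf S) / P) _ h3 (by omega)
      rwa [e] at h5

theorem count_Rs (s : ℕ) {u v : List ℕ} {P : ℕ} (hP : 0 < P) (hu : Per P u) (hv : Per P v)
    (k : ℕ) :
    {S : Set ℕ | ∃ w : List ℕ, w.length = k ∧ (∀ a ∈ w, a < s) ∧ S = Rs u v w}.Finite ∧
      {S : Set ℕ | ∃ w : List ℕ, w.length = k ∧ (∀ a ∈ w, a < s) ∧ S = Rs u v w}.ncard ≤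
        (u.length + 1) ^ 2 * 2 ^ P := by
  classical
  let Φ : Fin (u.length + 1) × Fin (u.length + 1) × Finset (Fin P) → Set ℕ :=
    fun c => dcd P c.1 c.2.1 {i | ∃ j ∈ c.2.2, (j : ℕ) = i}
  have hsub : {S : Set ℕ | ∃ w : List ℕ, w.length = k ∧ (∀ a ∈ w, a < s) ∧ S = Rs u v w} ⊆
      Set.range Φ := by
    rintro S ⟨w, -, -, rfl⟩
    obtain ⟨l, r, Q, h⟩ := dcd_eq (N := u.length) hP (S := Rs u v w) (fun z hz => hz.1)
      (fun x hx y hy hxy => cross hP hu hv w x y hx hy hxy)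
    exact ⟨(l, r, Q), h.symm⟩
  have hfin : (Set.range Φ).Finite := Set.finite_range Φ
  refine ⟨hfin.subset hsub, ?_⟩
  calc _ ≤ (Set.range Φ).ncard := Set.ncard_le_ncard hsub hfin
    _ ≤ Nat.card (Fin (u.length + 1) × Fin (u.length + 1) × Finset (Fin P)) := by
      rw [← Set.image_univ]
      refine (Set.ncard_image_le (Set.finite_univ)).trans ?_
      rw [Set.ncard_univ]
    _ = (u.length + 1) ^ 2 * 2 ^ P := by
      rw [Nat.card_eq_fintype_card, Fintype.card_prod, Fintype.card_prod, Fintype.card_fin,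
        Fintype.card_finset, Fintype.card_fin]
      ring

end Pool.Agent.SH
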