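import Pool.Agent.H.MP_53e59f_lc.SH.Itr
import Pool.Agent.H.MP_53e59f_lc.SH.Cnt
import Pool.Agent.H.MP_53e59f_lc.SF.Corr
import Pool.Agent.H.MP_53e59f_lc.SH.Alg

/-!
# Correctness for instances (as SF/Corr)
-/

namespace Pool.Agent.SH

open Pool.Agent.SF

theorem Per_map {α β : Type} (f : α → β) {P : ℕ} {u : List α} (h : Per P u) : Per P (u.map f) := by
  intro i hi
  rw [List.length_map] at hi
  rw [List.getElem?_map, List.getElem?_map, h i hi]

/-- The algorithm for two words `u`, `v` (the words of the instance). -/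
theorem alg_dat (x : Inst) {P C : ℕ} (u v : List (Fin x.s)) (hP : 0 < P) (hu : Per P u)
    (hv : Per P v) (hC : x.m * ((u.length + 1) ^ 2 * 2 ^ P) ≤ C) :
    ((alg x.s x.dat.2.1 x.dat.2.2.1 x.dat.2.2.2.1 (u.map Fin.val) (v.map Fin.val) C).1 = true ↔
      ∃ w, w ∈ x.M.accepts ∧ ¬ Sh u v w) ∧
    ((alg x.s x.dat.2.1 x.dat.2.2.1 x.dat.2.2.2.1 (u.map Fin.val) (v.map Fin.val) C).2 = true ↔
      ∃ w, w ∉ x.M.accepts ∧ Sh u v w) := by
  have hm : ∀ w : List ℕ, (∀ a ∈ w, a < x.s) → ev x.dat.2.1 x.dat.2.2.1 w < x.m := by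
    intro w hw
    obtain ⟨w', rfl⟩ := ex_map hw
    rw [ev_dat]
    exact (x.M.eval w').2
  have hC' : x.m * (((u.map Fin.val).length + 1) ^ 2 * 2 ^ P) ≤ C := by
    rw [List.length_map]
    exact hC
  obtain ⟨h1, h2⟩ := SH.alg_iff (acc := x.dat.2.2.2.1)
    (fun k => SH.count_Rs x.s hP (Per_map Fin.val hu) (Per_map Fin.val hv) k) hm hC'
  refine ⟨h1.trans ?_, h2.trans ?_⟩
  · constructor
    · rintro ⟨w, -, hw, ha, hs⟩
      obtain ⟨w', rfl⟩ := ex_map hw
      exact ⟨w', (acc_dat x w').1 ha, fun h => hs ((Sh_map Fin.val_injective).2 h)⟩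
    · have key : ∀ w : List (Fin x.s), w ∈ x.M.accepts → ¬ Sh u v w →
          w.length ≤ u.length + v.length + x.m → ∃ w : List ℕ,
          w.length ≤ (u.map Fin.val).length + (v.map Fin.val).length + x.dat.2.1.length ∧
          (∀ a ∈ w, a < x.s) ∧ x.dat.2.2.2.1.getD (ev x.dat.2.1 x.dat.2.2.1 w) false = true ∧
          ¬ Sh (u.map Fin.val) (v.map Fin.val) w := by
        intro w ha hs hl
        refine ⟨w.map Fin.val, ?_, Corr_lt w, (acc_dat x w).2 ha,
          fun h => hs ((Sh_map Fin.val_injective).1 h)⟩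
        rw [List.length_map, List.length_map, List.length_map, Corr_len]
        exact hl
      rintro ⟨w, ha, hs⟩
      rcases Nat.lt_or_ge (u.length + v.length) w.length with h | h
      · obtain ⟨w', ha', h1', h2'⟩ := pump x.M (u.length + v.length) ha h
        refine key w' ha' (fun h3 => ?_) h2'
        have h4 := h3.length
        omega
      · exact key w ha hs (by omega)
  · constructor
    · rintro ⟨w, -, hw, ha, hs⟩
      obtain ⟨w', rfl⟩ := ex_map hw
      exact ⟨w', (Corr_acc x w').1 ha, (Sh_map Fin.val_injective).1 hs⟩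
    · rintro ⟨w, ha, hs⟩
      refine ⟨w.map Fin.val, ?_, Corr_lt w, (Corr_acc x w).2 ha, (Sh_map Fin.val_injective).2 hs⟩
      rw [List.length_map, List.length_map, List.length_map, hs.length]
      omega

theorem two_pow_le {N P c : ℕ} (hN : N ≠ 0) (h : P ≤ c * Nat.log 2 N) : 2 ^ P ≤ N ^ c :=
  calc 2 ^ P ≤ 2 ^ (c * Nat.log 2 N) := Nat.pow_le_pow_right (by norm_num) h
    _ = (2 ^ Nat.log 2 N) ^ c := by rw [mul_comm, pow_mul]
    _ ≤ N ^ c := Nat.pow_le_pow_left (Nat.pow_log_le_self 2 hN) c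

/-- The bound is large enough. -/
theorem cap_ge (x : Inst) {P c : ℕ} (hP : P ≤ c * Nat.log 2 x.encode.length) :
    x.m * ((x.u.length + 1) ^ 2 * 2 ^ P) ≤ SH.cap c x.dat := by
  have h1 := two_pow_le (N := x.encode.length) (by
    rw [Inst.encode, Pool.Agent.H.MP_5be563_lc.PT.D.bits_length]
    exact Nat.ne_of_gt (Pool.Agent.H.MP_5be563_lc.PT.D.size_pos _)) hP
  have e1 : x.dat.2.2.2.2.1.length = x.u.length := List.length_map _
  unfold SH.cap
  rw [Corr_len, e1]
  exact Nat.mul_le_mul_left _ (Nat.mul_le_mul_left _ h1)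

theorem dec_iff (x : Inst) {P c : ℕ} (hP : 0 < P) (hP' : P ≤ c * Nat.log 2 x.encode.length)
    (hu : Per P x.u) (hv : Per P x.v) :
    ((SH.dec c x.dat).1 = true ↔ ∃ w, w ∈ x.M.accepts ∧ ¬ Sh x.u x.v w) ∧
    ((SH.dec c x.dat).2 = true ↔ ∃ w, w ∉ x.M.accepts ∧ Sh x.u x.v w) := by
  unfold SH.dec
  exact SH.alg_dat x x.u x.v hP hu hv (SH.cap_ge x hP')

end Pool.Agent.SH
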