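import Pool.Agent.H.MP_53e59f_lc.SF.Tok
import Pool.Agent.H.MP_53e59f_lc.SH.Per

/-!
# Tokens of periodic words

If `x` and `y` are tokens and `x + P ≤ y` then `x + P` and `y - P` are tokens.
-/

namespace Pool.Agent.SH

open Pool.Agent.SF

theorem cross {P : ℕ} (hP : 0 < P) {u v : List ℕ} (hu : Per P u) (hv : Per P v) (w : List ℕ) :
    ∀ x y, Tk u v w x → Tk u v w y → x + P ≤ y → Tk u v w (x + P) ∧ Tk u v w (y - P) := by
  induction w using List.reverseRecOn with
  | nil =>
    intro x y hx hy h
    rw [Tk_nil] at hx hy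
    omega
  | append_singleton w a ih =>
    intro x y hx hy h
    by_cases he : y = x + P
    · subst he
      rw [Nat.add_sub_cancel]
      exact ⟨hy, hx⟩
    have hlt : x + P + 1 ≤ y := by omega
    have hyu : y ≤ u.length := hy.1
    have hxv : (w ++ [a]).length - x ≤ v.length := hx.2.2.1
    have hwl : (w ++ [a]).length = w.length + 1 := by simp
    rw [hwl] at hxv
    -- the predecessors
    obtain ⟨x', hx'1, hx'2, hx'3⟩ : ∃ x', Tk u v w x' ∧ x' ≤ x ∧ x ≤ x' + 1 := by
      rcases (Tk_snoc u v w a x).1 hx with ⟨h1, _⟩ | ⟨h0, h1, _⟩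
      · exact ⟨x, h1, le_rfl, by omega⟩
      · exact ⟨x - 1, h1, by omega, by omega⟩
    obtain ⟨y', hy'1, hy'2, hy'3⟩ : ∃ y', Tk u v w y' ∧ y' ≤ y ∧ y ≤ y' + 1 := by
      rcases (Tk_snoc u v w a y).1 hy with ⟨h1, _⟩ | ⟨h0, h1, _⟩
      · exact ⟨y, h1, le_rfl, by omega⟩
      · exact ⟨y - 1, h1, by omega, by omega⟩
    constructor
    · rcases (Tk_snoc u v w a x).1 hx with ⟨h1, h2⟩ | ⟨h0, h1, h2⟩
      · have h3 := (ih x y' h1 hy'1 (by omega)).1
        refine (Tk_snoc u v w a (x + P)).2 (Or.inl ⟨h3, ?_⟩)
        have h4 : x + P ≤ w.length := h3.2.1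
        have h5 : w.length - x < v.length := by
          by_contra hcon
          rw [List.getElem?_eq_none (by omega)] at h2
          exact absurd h2 (by simp)
        have h6 := hv (w.length - (x + P)) (by omega)
        have h7 : w.length - (x + P) + P = w.length - x := by omega
        rw [h7, h2] at h6
        exact h6.symm
      · have h3 := (ih (x - 1) y' h1 hy'1 (by omega)).1
        refine (Tk_snoc u v w a (x + P)).2 (Or.inr ⟨by omega, ?_, ?_⟩)
        · have h4 : x + P - 1 = x - 1 + P := by omega
          rw [h4]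
          exact h3
        · have h4 : x + P - 1 = x - 1 + P := by omega
          rw [h4, hu (x - 1) (by omega)]
          exact h2
    · rcases (Tk_snoc u v w a y).1 hy with ⟨h1, h2⟩ | ⟨h0, h1, h2⟩
      · have h3 := (ih x' y hx'1 h1 (by omega)).2
        refine (Tk_snoc u v w a (y - P)).2 (Or.inl ⟨h3, ?_⟩)
        have h4 : y ≤ w.length := h1.2.1
        have h6 := hv (w.length - y) (by omega)
        have h7 : w.length - y + P = w.length - (y - P) := by omega
        rw [h7, h2] at h6
        exact h6
      · have h3 := (ih x' (y - 1) hx'1 h1 (by omega)).2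
        refine (Tk_snoc u v w a (y - P)).2 (Or.inr ⟨by omega, ?_, ?_⟩)
        · have h4 : y - P - 1 = y - 1 - P := by omega
          rw [h4]
          exact h3
        · have h4 : y - P - 1 = y - 1 - P := by omega
          have h5 := hu (y - 1 - P) (by omega)
          have h6 : y - 1 - P + P = y - 1 := by omega
          rw [h6, h2] at h5
          rw [h4]
          exact h5.symm

end Pool.Agent.SH
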