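import Pool.Agent.H.MP_53e59f_lc.SF.PTime
import Pool.Agent.H.MP_53e59f_lc.SH.Alg

/-!
# Polynomial time (as SF/PTime)
-/

namespace Pool.Agent.SH

open Pool.Agent.SF
open Pool.Agent.H.MP_5be563_lc.PT

theorem poly_cap (c : ℕ) : Poly (SH.cap c) := by
  have h1 : Poly (fun d : Dat => d.2.2.2.2.1.length + 1) := by fun_prop
  have h3 : Poly (fun d : Dat => (enc d).bits.length) :=
    Poly.length (Poly.bits (Poly.encD (by fun_prop)))
  have h4 : Poly (fun d : Dat => d.2.1.length) := by fun_prop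
  exact Poly.mul h4 (Poly.mul (poly_pow h1 2) (poly_pow h3 c))

theorem poly_dec (c : ℕ) : Poly (SH.dec c) := by
  have h1 : Poly (fun d : Dat => d.1) := by fun_prop
  have h2 : Poly (fun d : Dat => d.2.1) := by fun_prop
  have h3 : Poly (fun d : Dat => d.2.2.1) := by fun_prop
  have h4 : Poly (fun d : Dat => d.2.2.2.1) := by fun_prop
  have h5 : Poly (fun d : Dat => d.2.2.2.2.1) := by fun_prop
  have h6 : Poly (fun d : Dat => d.2.2.2.2.2) := by fun_prop
  exact poly_alg h1 h2 h3 h4 h5 h6 (SH.poly_cap c)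

end Pool.Agent.SH
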