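import Pool.Agent.H.MP_53e59f_lc.SF.Inv

/-!
# The invariant of the algorithm with an abstract bound (as SF/Inv)
-/

namespace Pool.Agent.SH

open Pool.Agent.SF

variable {s : ℕ} {tab : List (List ℕ)} {st : ℕ} {acc : List Bool} {u v : List ℕ} {m B C : ℕ}

theorem good_len (hr : ∀ k, {S : Set ℕ | ∃ w : List ℕ, w.length = k ∧ (∀ a ∈ w, a < s) ∧ S = Rs u v w}.Finite ∧
      {S : Set ℕ | ∃ w : List ℕ, w.length = k ∧ (∀ a ∈ w, a < s) ∧ S = Rs u v w}.ncard ≤ B) (hm : ∀ w : List ℕ, (∀ a ∈ w, a < s) → ev tab st w < m)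
    {k : ℕ} {L : List (ℕ × List Bool)} (h : Good s tab st u v k L) :
    L.length ≤ m * B := by
  classical
  obtain ⟨hf, hc⟩ := hr k
  let F : Finset (Set ℕ) := hf.toFinset
  let g : Set ℕ → List Bool := fun S => (List.range (u.length + 1)).map fun p => decide (p ∈ S)
  have hg : ∀ w, RB u v w = g (Rs u v w) := fun w => by
    unfold RB
    rfl
  have hsub : L.toFinset ⊆ Finset.range m ×ˢ F.image g := by
    intro e he
    obtain ⟨w, hw, hws, rfl⟩ := (h.mem e).1 (List.mem_toFinset.1 he)
    refine Finset.mem_product.2 ⟨Finset.mem_range.2 (hm w hws), Finset.mem_image.2 ⟨Rs u v w, ?_, ?_⟩⟩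
    · exact hf.mem_toFinset.2 ⟨w, hw, hws, rfl⟩
    · exact (hg w).symm
  calc L.length = L.toFinset.card := (List.toFinset_card_of_nodup h.nd).symm
    _ ≤ (Finset.range m ×ˢ F.image g).card := Finset.card_le_card hsub
    _ = m * (F.image g).card := by rw [Finset.card_product, Finset.card_range]
    _ ≤ m * F.card := Nat.mul_le_mul_left m Finset.card_image_le
    _ ≤ m * B := by
      refine Nat.mul_le_mul_left m ?_
      rw [← Set.ncard_eq_toFinset_card _ hf]
      exact hc

private theorem Inv_ev (w : List ℕ) (a : ℕ) : ev tab st (w ++ [a]) = look tab (ev tab st w) a := by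
  unfold ev
  rw [List.foldl_append]
  rfl

theorem good_nxt (hr : ∀ k, {S : Set ℕ | ∃ w : List ℕ, w.length = k ∧ (∀ a ∈ w, a < s) ∧ S = Rs u v w}.Finite ∧
      {S : Set ℕ | ∃ w : List ℕ, w.length = k ∧ (∀ a ∈ w, a < s) ∧ S = Rs u v w}.ncard ≤ B)
    (hm : ∀ w : List ℕ, (∀ a ∈ w, a < s) → ev tab st w < m) {k : ℕ}
    (hC : m * B ≤ C)
    {L : List (ℕ × List Bool)} (h : Good s tab st u v k L) :
    Good s tab st u v (k + 1) (nxt s tab u v C k L) := by
  have h1 : Good s tab st u v (k + 1)
      (dd (L.flatMap fun e => (List.range s).map fun a => (look tab e.1 a, stp u v k e.2 a))) := by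
    refine ⟨nodup_dd _, fun e => ?_⟩
    rw [mem_dd, List.mem_flatMap]
    constructor
    · rintro ⟨e', he', h2⟩
      obtain ⟨a, ha, rfl⟩ := List.mem_map.1 h2
      obtain ⟨w, hw, hws, rfl⟩ := (h.mem e').1 he'
      refine ⟨w ++ [a], by rw [List.length_append, hw]; rfl, fun b hb => ?_, ?_⟩
      · rcases List.mem_append.1 hb with hb | hb
        · exact hws b hb
        · rw [List.mem_singleton.1 hb]
          exact List.mem_range.1 ha
      · rw [Inv_ev, RB_snoc, hw]
    · rintro ⟨w', hw', hws', rfl⟩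
      rcases List.eq_nil_or_concat w' with rfl | ⟨w, a, rfl⟩
      · exact absurd hw' (by simp)
      · rw [List.concat_eq_append] at hw' hws' ⊢
        have hw : w.length = k := by
          rw [List.length_append] at hw'
          simpa using hw'
        refine ⟨(ev tab st w, RB u v w), (h.mem _).2 ⟨w, hw, fun b hb => hws' b ?_, rfl⟩,
          List.mem_map.2 ⟨a, List.mem_range.2 (hws' a ?_), ?_⟩⟩
        · exact List.mem_append_left _ hb
        · exact List.mem_append_right _ (List.mem_singleton.2 rfl)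
        · rw [Inv_ev, RB_snoc, hw]
  have h2 := (SH.good_len hr hm h1).trans hC
  have h3 : nxt s tab u v C k L =
      dd (L.flatMap fun e => (List.range s).map fun a => (look tab e.1 a, stp u v k e.2 a)) :=
    List.take_of_length_le h2
  rw [h3]
  exact h1

end Pool.Agent.SH
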