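import Pool.Agent.H.MP_53e59f_lc.SH.Inv
import Pool.Agent.H.MP_53e59f_lc.SF.Itr

/-!
# The iteration (as SF/Itr)
-/

namespace Pool.Agent.SH

open Pool.Agent.SF

variable {s : ℕ} {tab : List (List ℕ)} {st : ℕ} {acc : List Bool} {u v : List ℕ} {m B C : ℕ}

theorem good_iter (hr : ∀ k, {S : Set ℕ | ∃ w : List ℕ, w.length = k ∧ (∀ a ∈ w, a < s) ∧ S = Rs u v w}.Finite ∧
      {S : Set ℕ | ∃ w : List ℕ, w.length = k ∧ (∀ a ∈ w, a < s) ∧ S = Rs u v w}.ncard ≤ B)
    (hm : ∀ w : List ℕ, (∀ a ∈ w, a < s) → ev tab st w < m)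
    (hC : m * B ≤ C) (j : ℕ) :
    ((one s tab acc u v C)^[j] (0, [(st, ini u)], false, false)).1 = j ∧
      Good s tab st u v j ((one s tab acc u v C)^[j] (0, [(st, ini u)], false, false)).2.1 := by
  induction j with
  | zero => exact ⟨rfl, good_zero⟩
  | succ j ih =>
    obtain ⟨h1, h2⟩ := ih
    rw [Function.iterate_succ_apply']
    refine ⟨?_, ?_⟩
    · show ((one s tab acc u v C)^[j] (0, [(st, ini u)], false, false)).1 + 1 = j + 1
      rw [h1]
    · show Good s tab st u v (j + 1)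
        (nxt s tab u v C ((one s tab acc u v C)^[j] (0, [(st, ini u)], false, false)).1
          ((one s tab acc u v C)^[j] (0, [(st, ini u)], false, false)).2.1)
      rw [h1]
      exact SH.good_nxt hr hm hC h2

theorem alg_iff (hr : ∀ k, {S : Set ℕ | ∃ w : List ℕ, w.length = k ∧ (∀ a ∈ w, a < s) ∧ S = Rs u v w}.Finite ∧
      {S : Set ℕ | ∃ w : List ℕ, w.length = k ∧ (∀ a ∈ w, a < s) ∧ S = Rs u v w}.ncard ≤ B)
    (hm : ∀ w : List ℕ, (∀ a ∈ w, a < s) → ev tab st w < m)
    (hC : m * B ≤ C) :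
    ((alg s tab st acc u v C).1 = true ↔
      ∃ w : List ℕ, w.length ≤ u.length + v.length + tab.length ∧ (∀ a ∈ w, a < s) ∧
        acc.getD (ev tab st w) false = true ∧ ¬ Sh u v w) ∧
    ((alg s tab st acc u v C).2 = true ↔
      ∃ w : List ℕ, w.length ≤ u.length + v.length + tab.length ∧ (∀ a ∈ w, a < s) ∧
        acc.getD (ev tab st w) false = false ∧ Sh u v w) := by
  have hg : ∀ k, k < u.length + v.length + tab.length + 1 →
      ((one s tab acc u v C)^[k] (0, [(st, ini u)], false, false)).1 = k ∧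
        Good s tab st u v k ((one s tab acc u v C)^[k] (0, [(st, ini u)], false, false)).2.1 :=
    fun k _ => SH.good_iter hr hm hC k
  have hf := Itr_flags (s := s) (tab := tab) (st := st) (acc := acc) (u := u) (v := v) (C := C)
    (u.length + v.length + tab.length + 1)
  refine ⟨?_, ?_⟩
  · show ((one s tab acc u v C)^[u.length + v.length + tab.length + 1]
      (0, [(st, ini u)], false, false)).2.2.1 = true ↔ _
    rw [hf.1]
    constructor
    · rintro ⟨k, hk, h⟩
      rw [(hg k hk).1, Itr_bad1 (hg k hk).2] at h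
      obtain ⟨w, h1, h2⟩ := h
      exact ⟨w, by omega, h2⟩
    · rintro ⟨w, h1, h2⟩
      refine ⟨w.length, by omega, ?_⟩
      rw [(hg w.length (by omega)).1, Itr_bad1 (hg w.length (by omega)).2]
      exact ⟨w, rfl, h2⟩
  · show ((one s tab acc u v C)^[u.length + v.length + tab.length + 1]
      (0, [(st, ini u)], false, false)).2.2.2 = true ↔ _
    rw [hf.2]
    constructor
    · rintro ⟨k, hk, h⟩
      rw [(hg k hk).1, Itr_bad2 (hg k hk).2] at h
      obtain ⟨w, h1, h2⟩ := h
      exact ⟨w, by omega, h2⟩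
    · rintro ⟨w, h1, h2⟩
      refine ⟨w.length, by omega, ?_⟩
      rw [(hg w.length (by omega)).1, Itr_bad2 (hg w.length (by omega)).2]
      exact ⟨w, rfl, h2⟩

end Pool.Agent.SH
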